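import Mathlib

namespace Pool.Agent.Results.MP_4f8f6c_nt.TwoModFour

open Polynomial

/-- primitive polynomial over GF(2): degree at least 1, value 1 at 0, irreducible, and the
least positive t with f dividing x^t + 1 is 2^(deg f) - 1 -/
def Primitive (f : (ZMod 2)[X]) : Prop :=
  1 ≤ f.natDegree ∧ f.eval 0 = 1 ∧ Irreducible f ∧
    IsLeast {t : ℕ | 0 < t ∧ f ∣ X ^ t + 1} (2 ^ f.natDegree - 1)

section
variable {K : Type} [Field K] [Algebra (ZMod 2) K]

theorem two0 : (2 : K) = 0 := by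
  have h : algebraMap (ZMod 2) K 2 = 2 := map_ofNat _ 2
  rw [← h]
  have : (2 : ZMod 2) = 0 := rfl
  rw [this, map_zero]

theorem ordle (δ : K) (hδ : δ ≠ 0) (h : (ZMod 2)[X]) (h0 : h ≠ 0) (hr : aeval δ h = 0) :
    0 < orderOf δ ∧ orderOf δ ≤ 2 ^ h.natDegree - 1 := by
  have hi : IsIntegral (ZMod 2) δ := (show IsAlgebraic (ZMod 2) δ from ⟨h, h0, hr⟩).isIntegral
  have hfin := IntermediateField.adjoin.finiteDimensional hi
  have hrk := IntermediateField.adjoin.finrank hi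
  have : Finite (IntermediateField.adjoin (ZMod 2) {δ}) := Module.finite_of_finite (ZMod 2)
  let _ : Fintype (IntermediateField.adjoin (ZMod 2) {δ}) := Fintype.ofFinite _
  have hc := Module.card_eq_pow_finrank (K := ZMod 2) (V := IntermediateField.adjoin (ZMod 2) {δ})
  rw [ZMod.card, hrk] at hc
  have hx : IntermediateField.AdjoinSimple.gen (ZMod 2) δ ≠ 0 := by
    intro e
    apply hδ
    have := congrArg (fun z : IntermediateField.adjoin (ZMod 2) {δ} => (z : K)) e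
    simpa using this
  have hp := FiniteField.pow_card_sub_one_eq_one _ hx
  rw [hc] at hp
  have hp' : δ ^ (2 ^ (minpoly (ZMod 2) δ).natDegree - 1) = 1 := by
    have := congrArg (fun z : IntermediateField.adjoin (ZMod 2) {δ} => (z : K)) hp
    simpa using this
  have hd : (minpoly (ZMod 2) δ).natDegree ≤ h.natDegree :=
    natDegree_le_of_dvd (minpoly.dvd _ _ hr) h0
  have hpos : 0 < (minpoly (ZMod 2) δ).natDegree := minpoly.natDegree_pos hi
  have h1 : 1 < 2 ^ (minpoly (ZMod 2) δ).natDegree := Nat.one_lt_two_pow hpos.ne'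
  have h2 : 2 ^ (minpoly (ZMod 2) δ).natDegree ≤ 2 ^ h.natDegree :=
    Nat.pow_le_pow_right (by norm_num) hd
  have hdv := orderOf_dvd_of_pow_eq_one hp'
  refine ⟨Nat.pos_of_dvd_of_pos hdv (by omega), ?_⟩
  have := Nat.le_of_dvd (by omega) hdv
  omega

theorem prim_of (β : K) (n : ℕ) (hn : 1 ≤ n) (ho : orderOf β = 2 ^ n - 1) (g : (ZMod 2)[X])
    (hm : g.Monic) (hd : g.natDegree = n) (hr : aeval β g = 0) (h0 : g.eval 0 = 1) :
    Primitive g := by
  have h1 : 1 < 2 ^ n := Nat.one_lt_two_pow (by omega)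
  have hβ : β ≠ 0 := by
    intro e
    have := pow_orderOf_eq_one β
    rw [ho, e, zero_pow (by omega)] at this
    exact zero_ne_one this
  have hi : IsIntegral (ZMod 2) β := ⟨g, hm, hr⟩
  have hle := (ordle β hβ _ (minpoly.ne_zero hi) (minpoly.aeval _ _)).2
  rw [ho] at hle
  have hge : n ≤ (minpoly (ZMod 2) β).natDegree := by
    by_contra hlt
    have : 2 ^ (minpoly (ZMod 2) β).natDegree < 2 ^ n :=
      Nat.pow_lt_pow_right (by norm_num) (by omega)
    have h3 : 0 < 2 ^ (minpoly (ZMod 2) β).natDegree := by positivity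
    omega
  have hg : g = minpoly (ZMod 2) β :=
    eq_of_monic_of_dvd_of_natDegree_le (minpoly.monic hi) hm (minpoly.dvd _ _ hr) (by omega)
  have key : ∀ t : ℕ, g ∣ X ^ t + 1 ↔ β ^ t = 1 := by
    intro t
    rw [hg, minpoly.dvd_iff]
    simp only [map_add, map_pow, aeval_X, map_one]
    have := two0 (K := K)
    constructor
    · intro e; linear_combination e - this
    · intro e; linear_combination e + this
  refine ⟨by omega, h0, hg ▸ minpoly.irreducible hi, ?_, ?_⟩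
  · refine ⟨by rw [hd]; omega, (key _).2 ?_⟩
    rw [hd, ← ho]; exact pow_orderOf_eq_one β
  · rintro t ⟨ht, hdv⟩
    rw [hd, ← ho]
    exact orderOf_le_of_pow_eq_one ht ((key t).1 hdv)

/-- the conclusion -/
def Penta (n : ℕ) : Prop :=
  ∃ a₁ a₂ a₃ : ℕ, 0 < a₁ ∧ a₁ < a₂ ∧ a₂ < a₃ ∧ a₃ < n ∧
    Primitive (X ^ n + X ^ a₃ + X ^ a₂ + X ^ a₁ + 1)

theorem fin0 (β : K) (n : ℕ) (ho : orderOf β = 2 ^ n - 1) (a b c : ℕ) (h1 : 0 < a) (h2 : a < b)
    (h3 : b < c) (h4 : c < n) (hr : β ^ n + β ^ c + β ^ b + β ^ a + 1 = 0) : Penta n := by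
  refine ⟨a, b, c, h1, h2, h3, h4, ?_⟩
  have hdeg : (X ^ c + X ^ b + X ^ a + 1 : (ZMod 2)[X]).degree < (X ^ n : (ZMod 2)[X]).degree := by
    rw [degree_X_pow]
    refine lt_of_le_of_lt (b := (c : WithBot ℕ)) ?_ (by exact_mod_cast h4)
    have q1 : (X ^ b : (ZMod 2)[X]).degree ≤ (c : WithBot ℕ) :=
      (degree_X_pow_le b).trans (by exact_mod_cast h3.le)
    have q2 : (X ^ a : (ZMod 2)[X]).degree ≤ (c : WithBot ℕ) :=
      (degree_X_pow_le a).trans (by exact_mod_cast (h2.trans h3).le)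
    exact degree_add_le_of_degree_le (degree_add_le_of_degree_le
      (degree_add_le_of_degree_le (degree_X_pow_le c) q1) q2)
      (degree_one_le.trans (by exact_mod_cast Nat.zero_le c))
  have e : (X ^ n + X ^ c + X ^ b + X ^ a + 1 : (ZMod 2)[X])
      = X ^ n + (X ^ c + X ^ b + X ^ a + 1) := by ring
  refine prim_of β n (by omega) ho _ ?_ ?_ ?_ ?_
  · rw [e]; exact (monic_X_pow n).add_of_left hdeg
  · rw [e, natDegree_add_eq_left_of_degree_lt hdeg, natDegree_X_pow]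
  · simpa using hr
  · have : n ≠ 0 := by omega
    have : c ≠ 0 := by omega
    have : b ≠ 0 := by omega
    have : a ≠ 0 := by omega
    simp [*]

theorem fin1 (β : K) (n : ℕ) (ho : orderOf β = 2 ^ n - 1) (a b c : ℕ) (h1 : 0 < a) (h2 : 0 < b)
    (h3 : 0 < c) (h4 : a < n) (h5 : b < n) (h6 : c < n) (h7 : a ≠ b) (h8 : a ≠ c) (h9 : b ≠ c)
    (hr : β ^ n + β ^ c + β ^ b + β ^ a + 1 = 0) : Penta n := by
  rcases lt_or_gt_of_ne h7 with p | p <;> rcases lt_or_gt_of_ne h8 with q | q <;>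
    rcases lt_or_gt_of_ne h9 with r | r
  · exact fin0 β n ho a b c h1 p r h6 (by linear_combination hr)
  · exact fin0 β n ho a c b h1 q r h5 (by linear_combination hr)
  · omega
  · exact fin0 β n ho c a b h3 q p h5 (by linear_combination hr)
  · exact fin0 β n ho b a c h2 p q h6 (by linear_combination hr)
  · omega
  · exact fin0 β n ho b c a h2 r q h4 (by linear_combination hr)
  · exact fin0 β n ho c b a h3 r p h4 (by linear_combination hr)

theorem nogcd (α : K) (n a : ℕ) (hn : 0 < n) (ho : orderOf α = 2 ^ n - 1)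
    (hr : α ^ n + α ^ a + 1 = 0) (d m b : ℕ) (hd : 2 ≤ d) (hb : b < m) (e1 : n = d * m)
    (e2 : a = d * b) : False := by
  have h1 : 1 < 2 ^ n := Nat.one_lt_two_pow (by omega)
  have hα : α ≠ 0 := by
    intro e
    have := pow_orderOf_eq_one α
    rw [ho, e, zero_pow (by omega)] at this
    exact zero_ne_one this
  have hdeg : (X ^ b + 1 : (ZMod 2)[X]).degree < (X ^ m : (ZMod 2)[X]).degree := by
    rw [degree_X_pow]
    refine lt_of_le_of_lt (b := (b : WithBot ℕ)) ?_ (by exact_mod_cast hb)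
    exact degree_add_le_of_degree_le (degree_X_pow_le b)
      (degree_one_le.trans (by exact_mod_cast Nat.zero_le b))
  have hm : (X ^ m + (X ^ b + 1) : (ZMod 2)[X]).Monic := (monic_X_pow m).add_of_left hdeg
  have hk := ordle (α ^ d) (pow_ne_zero _ hα) _ hm.ne_zero (by
    simp only [map_add, map_pow, aeval_X, map_one, ← pow_mul]
    rw [← e1, ← e2]; linear_combination hr)
  rw [natDegree_add_eq_left_of_degree_lt hdeg, natDegree_X_pow] at hk
  have h2 : orderOf α ≤ d * orderOf (α ^ d) :=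
    orderOf_le_of_pow_eq_one (Nat.mul_pos (by omega) hk.1) (by rw [pow_mul, pow_orderOf_eq_one])
  obtain ⟨d, rfl⟩ : ∃ e, d = e + 1 := ⟨d - 1, by omega⟩
  have h3 : d + 1 ≤ 2 ^ d := Nat.lt_two_pow_self
  have h4 : 2 ^ d ≤ 2 ^ (d * m) := Nat.pow_le_pow_right (by norm_num) (by nlinarith)
  have h5 : 2 ^ n = 2 ^ (d * m) * 2 ^ m := by rw [e1, ← pow_add]; congr 1; ring
  have h6 : 0 < 2 ^ m := by positivity
  obtain ⟨M, hM⟩ : ∃ M, 2 ^ m = M + 1 := ⟨2 ^ m - 1, by omega⟩
  rw [hM] at hk h5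
  have h7 : (d + 1) * orderOf (α ^ (d + 1)) ≤ (d + 1) * M :=
    Nat.mul_le_mul_left _ (by have := hk.2; omega)
  have h8 : (d + 1) * (M + 1) ≤ 2 ^ (d * m) * (M + 1) := Nat.mul_le_mul_right _ (by omega)
  have h9 : (d + 1) * (M + 1) = (d + 1) * M + (d + 1) := by ring
  omega

theorem id1 (x y z : K) (h : x + y + z = 0) : x ^ 5 + x ^ 4 * y + x * y ^ 4 + y ^ 5 + z ^ 5 = 0 := by
  have hz : z = -(x + y) := by linear_combination h
  subst hz
  linear_combination (-2 * x ^ 4 * y - 5 * x ^ 3 * y ^ 2 - 5 * x ^ 2 * y ^ 3 - 2 * x * y ^ 4) *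
    two0 (K := K)

theorem id2 (x y z : K) (h : x + y + z = 0) :
    x ^ 5 + y ^ 5 + z ^ 5 + x * y ^ 3 * z + x ^ 2 * y * z ^ 2 = 0 := by
  have hz : y = -(x + z) := by linear_combination h
  subst hz
  linear_combination (-3 * x ^ 4 * z - 7 * x ^ 3 * z ^ 2 - 7 * x ^ 2 * z ^ 3 - 3 * x * z ^ 4) *
    two0 (K := K)

theorem main (α : K) (n a : ℕ) (hn : 6 ≤ n) (h4 : n % 4 = 2) (ha : 0 < a) (han : a < n)
    (ho : orderOf α = 2 ^ n - 1) (hr : α ^ n + α ^ a + 1 = 0) : Penta n := by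
  have hng := nogcd α n a (by omega) ho hr
  have hco : (orderOf α).Coprime 5 := by
    rw [ho]
    obtain ⟨k, rfl⟩ : ∃ k, n = 4 * k + 2 := ⟨n / 4, by omega⟩
    have h5 : 2 ^ (4 * k + 2) % 5 = 4 := by
      rw [pow_add, pow_mul, Nat.mul_mod, Nat.pow_mod]; norm_num
    rw [Nat.coprime_comm, Nat.Prime.coprime_iff_not_dvd (by norm_num)]
    generalize 2 ^ (4 * k + 2) = N at h5 ⊢
    omega
  have hb : orderOf (α ^ 5) = 2 ^ n - 1 := by rw [hco.orderOf_pow, ho]
  have hcase : a % 5 = 0 ∨ n % 5 = 0 ∨ (n - a) % 5 = 0 ∨ (n + a) % 5 = 0 ∨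
      (a + 3 * n) % 5 = 0 ∨ (n + 3 * a) % 5 = 0 := by
    clear hb hco hng ho hr
    rcases (by omega : a % 5 = 0 ∨ a % 5 = 1 ∨ a % 5 = 2 ∨ a % 5 = 3 ∨ a % 5 = 4) with
      h | h | h | h | h <;>
    rcases (by omega : n % 5 = 0 ∨ n % 5 = 1 ∨ n % 5 = 2 ∨ n % 5 = 3 ∨ n % 5 = 4) with
      h' | h' | h' | h' | h' <;> omega
  rcases hcase with h | h | h | h | h | h
  · obtain ⟨u, rfl⟩ : ∃ u, a = 5 * u := ⟨a / 5, by omega⟩
    refine fin1 _ n hb u (4 * u) (5 * u) (by omega) (by omega) (by omega) (by omega) (by omega)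
      (by omega) (by omega) (by omega) (by omega) ?_
    linear_combination id1 (α ^ (5 * u)) 1 (α ^ n) (by linear_combination hr)
  · obtain ⟨u, rfl⟩ : ∃ u, n = 5 * u := ⟨n / 5, by omega⟩
    refine fin1 _ _ hb u (4 * u) a (by omega) (by omega) (by omega) (by omega) (by omega)
      (by omega) (by omega) ?_ ?_ ?_
    · intro e; exact hng u 5 1 (by omega) (by omega) (by omega) (by omega)
    · intro e; exact hng u 5 4 (by omega) (by omega) (by omega) (by omega)
    · linear_combination id1 (α ^ (5 * u)) 1 (α ^ a) (by linear_combination hr)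
  · obtain ⟨u, rfl⟩ : ∃ u, n = a + 5 * u := ⟨(n - a) / 5, by omega⟩
    refine fin1 _ _ hb a (a + u) (a + 4 * u) (by omega) (by omega) (by omega) (by omega) (by omega)
      (by omega) (by omega) (by omega) (by omega) ?_
    linear_combination id1 (α ^ (a + 5 * u)) (α ^ a) 1 hr
  · obtain ⟨u, hu⟩ : ∃ u, n + a = 5 * u := ⟨(n + a) / 5, by omega⟩
    refine fin1 _ _ hb a u (2 * u) (by omega) (by omega) (by omega) (by omega) (by omega)
      (by omega) (by omega) ?_ (by omega) ?_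
    · intro e; exact hng u 3 2 (by omega) (by omega) (by omega) (by omega)
    · have e1 : (α ^ 5) ^ u = α ^ n * α ^ a := by rw [← pow_mul, ← hu, pow_add]
      have e2 : (α ^ 5) ^ (2 * u) = (α ^ n) ^ 2 * (α ^ a) ^ 2 := by
        rw [mul_comm 2 u, pow_mul, e1]; ring
      rw [e1, e2]
      linear_combination id2 (α ^ n) 1 (α ^ a) (by linear_combination hr)
  · obtain ⟨u, hu⟩ : ∃ u, a + 3 * n = 5 * u := ⟨(a + 3 * n) / 5, by omega⟩
    obtain ⟨v, hv⟩ : ∃ v, 2 * a + n = 5 * v := ⟨(2 * a + n) / 5, by omega⟩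
    refine fin1 _ _ hb a u v (by omega) (by omega) (by omega) (by omega) (by omega)
      (by omega) (by omega) ?_ (by omega) ?_
    · intro e; exact hng a 3 1 (by omega) (by omega) (by omega) (by omega)
    · have e1 : (α ^ 5) ^ u = α ^ a * (α ^ n) ^ 3 := by rw [← pow_mul, ← hu]; ring
      have e2 : (α ^ 5) ^ v = (α ^ a) ^ 2 * α ^ n := by rw [← pow_mul, ← hv]; ring
      rw [e1, e2]
      linear_combination id2 (α ^ a) (α ^ n) 1 (by linear_combination hr)
  · obtain ⟨u, hu⟩ : ∃ u, n + 3 * a = 5 * u := ⟨(n + 3 * a) / 5, by omega⟩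
    obtain ⟨v, hv⟩ : ∃ v, 2 * n + a = 5 * v := ⟨(2 * n + a) / 5, by omega⟩
    have hne : n ≠ a * 2 := fun e => hng a 2 1 (by omega) (by omega) e (by omega)
    refine fin1 _ _ hb a u v (by omega) (by omega) (by omega) (by omega) (by omega)
      (by omega) (by omega) (by omega) (by omega) ?_
    have e1 : (α ^ 5) ^ u = α ^ n * (α ^ a) ^ 3 := by rw [← pow_mul, ← hu]; ring
    have e2 : (α ^ 5) ^ v = (α ^ n) ^ 2 * α ^ a := by rw [← pow_mul, ← hv]; ring
    rw [e1, e2]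
    linear_combination id2 (α ^ n) (α ^ a) 1 hr

end

theorem root_order (n a : ℕ) (ha : 0 < a) (han : a < n)
    (hp : Primitive (X ^ n + X ^ a + 1)) :
    ∃ (K : Type) (_ : Field K) (_ : Algebra (ZMod 2) K) (α : K),
      orderOf α = 2 ^ n - 1 ∧ α ^ n + α ^ a + 1 = 0 := by
  obtain ⟨-, -, hirr, hl⟩ := hp
  have hdeg : (X ^ a + 1 : (ZMod 2)[X]).degree < (X ^ n : (ZMod 2)[X]).degree := by
    rw [degree_X_pow]
    refine lt_of_le_of_lt (b := (a : WithBot ℕ)) ?_ (by exact_mod_cast han)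
    exact degree_add_le_of_degree_le (degree_X_pow_le a)
      (degree_one_le.trans (by exact_mod_cast Nat.zero_le a))
  have hd : (X ^ n + X ^ a + 1 : (ZMod 2)[X]).natDegree = n := by
    rw [add_assoc, natDegree_add_eq_left_of_degree_lt hdeg, natDegree_X_pow]
  rw [hd] at hl
  generalize hf : (X ^ n + X ^ a + 1 : (ZMod 2)[X]) = f at hirr hl
  have : Fact (Irreducible f) := ⟨hirr⟩
  have key : ∀ t : ℕ, f ∣ X ^ t + 1 ↔ AdjoinRoot.root f ^ t = 1 := by
    intro t
    rw [← AdjoinRoot.mk_eq_zero]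
    simp only [map_add, map_pow, AdjoinRoot.mk_X, map_one]
    have := two0 (K := AdjoinRoot f)
    constructor
    · intro e; linear_combination e - this
    · intro e; linear_combination e + this
  refine ⟨AdjoinRoot f, inferInstance, inferInstance, AdjoinRoot.root f, ?_, ?_⟩
  · have h1 := (key _).1 hl.1.2
    apply le_antisymm (orderOf_le_of_pow_eq_one hl.1.1 h1)
    apply hl.2
    exact ⟨Nat.pos_of_dvd_of_pos (orderOf_dvd_of_pow_eq_one h1) hl.1.1,
      (key _).2 (pow_orderOf_eq_one _)⟩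
  · have := AdjoinRoot.mk_self (f := f)
    have h2 : AdjoinRoot.mk f (X ^ n + X ^ a + 1) = 0 := by rw [hf]; exact this
    simpa using h2

theorem result (n : ℕ) (hn : 6 ≤ n) (h4 : n % 4 = 2)
    (h : ∃ a : ℕ, 0 < a ∧ a < n ∧ Primitive (X ^ n + X ^ a + 1)) :
    ∃ a₁ a₂ a₃ : ℕ, 0 < a₁ ∧ a₁ < a₂ ∧ a₂ < a₃ ∧ a₃ < n ∧
      Primitive (X ^ n + X ^ a₃ + X ^ a₂ + X ^ a₁ + 1) := by
  obtain ⟨a, ha, han, hp⟩ := h
  obtain ⟨K, _, _, α, ho, hr⟩ := root_order n a ha han hp
  exact main α n a hn h4 ha han ho hr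

end Pool.Agent.Results.MP_4f8f6c_nt.TwoModFour
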